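import Mathlib

set_option autoImplicit false

open Finset

namespace Pool.Agent.N463.RT

/-- the Riccati coefficient -/
noncomputable def kap (θ : ℝ) (j : ℕ) : ℝ :=
  1 - Real.sin (((j : ℝ) - 1) * θ) / Real.sin ((j : ℝ) * θ)

lemma kap_one (θ : ℝ) : kap θ 1 = 1 := by
  simp [kap]

lemma kap_step (θ : ℝ) (j : ℕ) (h1 : 0 < Real.sin ((j : ℝ) * θ))
    (h2 : 0 < Real.sin (((j + 1 : ℕ) : ℝ) * θ)) (x z : ℝ) :
    kap θ (j + 1) * z ^ 2 ≤ (kap θ j - 2 * (1 - Real.cos θ)) * x ^ 2 + (z - x) ^ 2 := by
  unfold kap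
  have e1 : (((j + 1 : ℕ) : ℝ) - 1) * θ = (j : ℝ) * θ := by push_cast; ring
  rw [e1]
  have hs : Real.sin (((j : ℝ) - 1) * θ) + Real.sin (((j + 1 : ℕ) : ℝ) * θ)
      = 2 * Real.sin ((j : ℝ) * θ) * Real.cos θ := by
    have e2 : ((j : ℝ) - 1) * θ = (j : ℝ) * θ - θ := by ring
    have e3 : ((j + 1 : ℕ) : ℝ) * θ = (j : ℝ) * θ + θ := by push_cast; ring
    rw [e2, e3, Real.sin_sub, Real.sin_add]
    ring
  set p := Real.sin ((j : ℝ) * θ) with hp
  set q := Real.sin (((j + 1 : ℕ) : ℝ) * θ) with hq
  set s := Real.sin (((j : ℝ) - 1) * θ) with hs'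
  have hpq : 0 < p * q := mul_pos h1 h2
  have key : (1 - s / p - 2 * (1 - Real.cos θ)) * x ^ 2 + (z - x) ^ 2 - (1 - p / q) * z ^ 2
      = (q * x - p * z) ^ 2 / (p * q) := by
    have hc : s = 2 * p * Real.cos θ - q := by linarith
    rw [hc]
    field_simp
    ring
  have : 0 ≤ (q * x - p * z) ^ 2 / (p * q) := div_nonneg (sq_nonneg _) hpq.le
  linarith

lemma sin_pos_of {N : ℕ} (hN : 1 ≤ N) {j : ℕ} (hj1 : 1 ≤ j) (hj2 : j ≤ N) :
    0 < Real.sin ((j : ℝ) * (Real.pi / (2 * N))) := by
  have hN' : (0 : ℝ) < N := by exact_mod_cast hN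
  have hj' : (1 : ℝ) ≤ j := by exact_mod_cast hj1
  have hj2' : (j : ℝ) ≤ N := by exact_mod_cast hj2
  apply Real.sin_pos_of_pos_of_lt_pi
  · have := Real.pi_pos
    positivity
  · have hpi := Real.pi_pos
    rw [mul_div_assoc', div_lt_iff₀ (by positivity)]
    nlinarith

lemma kap_N {N : ℕ} (hN : 1 ≤ N) :
    kap (Real.pi / (2 * N)) N = 1 - Real.cos (Real.pi / (2 * N)) := by
  have hN' : (0 : ℝ) < N := by exact_mod_cast hN
  unfold kap
  have e1 : (N : ℝ) * (Real.pi / (2 * N)) = Real.pi / 2 := by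
    field_simp
  have e2 : ((N : ℝ) - 1) * (Real.pi / (2 * N)) = Real.pi / 2 - Real.pi / (2 * N) := by
    rw [sub_mul, e1, one_mul]
  rw [e1, e2, Real.sin_pi_div_two, Real.sin_pi_div_two_sub, div_one]

/-- `κ_k ≥ λ (1 + 2 (N - k))` -/
lemma kap_lower {N : ℕ} (hN : 1 ≤ N) (d k : ℕ) (hk : 1 ≤ k) (hd : k + d = N) :
    (1 - Real.cos (Real.pi / (2 * N))) * (1 + 2 * d) ≤ kap (Real.pi / (2 * N)) k := by
  induction d generalizing k with
  | zero =>
    have : k = N := by omega
    subst this
    rw [kap_N hN]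
    simp
  | succ d ih =>
    have h := ih (k + 1) (by omega) (by omega)
    have h1 := kap_step (Real.pi / (2 * N)) k (sin_pos_of hN hk (by omega))
      (sin_pos_of hN (by omega) (by omega)) 1 1
    push_cast
    nlinarith

section walk

variable {V : Type} (G : SimpleGraph V)

/-- energy minus `λ` times mass of an edge -/
def psi (lam : ℝ) (h : V → ℝ) : Sym2 V → ℝ :=
  Sym2.lift ⟨fun u v => (h u - h v) ^ 2 - lam * (h u ^ 2 + h v ^ 2), by
    intro u v
    ring⟩

@[simp] lemma psi_mk (lam : ℝ) (h : V → ℝ) (u v : V) :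
    psi lam h s(u, v) = (h u - h v) ^ 2 - lam * (h u ^ 2 + h v ^ 2) := rfl

variable {G}

lemma walk_bound {N : ℕ} (hN : 1 ≤ N) (h : V → ℝ) {x z : V} (p : G.Walk x z) (hz : h z = 0)
    (h1 : 1 ≤ p.length) (h2 : p.length ≤ N) :
    (kap (Real.pi / (2 * N)) p.length - (1 - Real.cos (Real.pi / (2 * N)))) * h x ^ 2 ≤
      (p.edges.map (psi (1 - Real.cos (Real.pi / (2 * N))) h)).sum := by
  induction p with
  | nil => simp at h1
  | @cons u v w hadj p ih =>
    rw [SimpleGraph.Walk.edges_cons, List.map_cons, List.sum_cons, psi_mk,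
      SimpleGraph.Walk.length_cons]
    rw [SimpleGraph.Walk.length_cons] at h2
    by_cases hp : p.length = 0
    · have hv : v = w := SimpleGraph.Walk.eq_of_length_eq_zero hp
      subst hv
      have hnil : p = SimpleGraph.Walk.nil := by
        cases p with
        | nil => rfl
        | cons _ _ => simp at hp
      subst hnil
      simp only [SimpleGraph.Walk.length_nil, SimpleGraph.Walk.edges_nil, List.map_nil,
        List.sum_nil]
      rw [zero_add, kap_one, hz]
      nlinarith
    · have ih' := ih hz (by omega) (by omega)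
      have hs := kap_step (Real.pi / (2 * N)) p.length (sin_pos_of hN (by omega) (by omega))
        (sin_pos_of hN (by omega) (by omega)) (h v) (h u)
      nlinarith

/-- from a walk to a zero of `h`, a path inside the positive set whose end has a zero neighbour -/
lemma exists_path (h : V → ℝ) {x z : V} (p : G.Walk x z) (hz : h z = 0) (hx : 0 < h x)
    (hnn : ∀ v, 0 ≤ h v) :
    ∃ (w z' : V) (q : G.Walk x w), (∀ v ∈ q.support, 0 < h v) ∧ G.Adj w z' ∧ h z' = 0 := by
  induction p with
  | nil => rw [hz] at hx; exact absurd hx (lt_irrefl _)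
  | @cons u v w hadj p ih =>
    rcases (hnn v).lt_or_eq with hv | hv
    · obtain ⟨w', z', q, hq, ha, hz'⟩ := ih hz hv
      refine ⟨w', z', SimpleGraph.Walk.cons hadj q, ?_, ha, hz'⟩
      intro y hy
      rw [SimpleGraph.Walk.support_cons, List.mem_cons] at hy
      rcases hy with rfl | hy
      · exact hx
      · exact hq y hy
    · refine ⟨u, v, SimpleGraph.Walk.nil, ?_, hadj, hv.symm⟩
      intro y hy
      rw [SimpleGraph.Walk.support_nil, List.mem_singleton] at hy
      subst hy
      exact hx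

end walk

section graph

variable {V : Type} [Fintype V] [DecidableEq V] (G : SimpleGraph V) [DecidableRel G.Adj]

/-- both ends of the edge are in the set where `h` is positive -/
def Inside (h : V → ℝ) (e : Sym2 V) : Prop := ∀ v ∈ e, 0 < h v

open Classical in
/-- one-sided inequality -/
lemma one_sided {N : ℕ} (hN : 1 ≤ N) (h : V → ℝ) (hnn : ∀ v, 0 ≤ h v) (hconn : G.Connected)
    (z : V) (hz : h z = 0)
    (hr : (G.edgeFinset.filter (Inside h)).card + 1 ≤ N) :
    0 ≤ ∑ e ∈ G.edgeFinset, psi (1 - Real.cos (Real.pi / (2 * N))) h e := by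
  set lam := 1 - Real.cos (Real.pi / (2 * N)) with hlam
  have hlam1 : lam ≤ 1 := by
    have : 0 ≤ Real.cos (Real.pi / (2 * N)) := by
      apply Real.cos_nonneg_of_mem_Icc
      have hN' : (1 : ℝ) ≤ N := by exact_mod_cast hN
      have hpi := Real.pi_pos
      constructor
      · have : 0 ≤ Real.pi / (2 * N) := by positivity
        linarith
      · apply div_le_div_of_nonneg_left hpi.le (by norm_num)
        linarith
    linarith
  have hlam0 : 0 ≤ lam := by
    have := Real.cos_le_one (Real.pi / (2 * N))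
    linarith
  obtain ⟨x, -, hx⟩ := Finset.exists_max_image (univ : Finset V) h ⟨z, mem_univ _⟩
  have hmax : ∀ v, h v ≤ h x := fun v => hx v (mem_univ _)
  -- outside edges have nonnegative psi
  have hout : ∀ e ∈ G.edgeFinset, ¬ Inside h e → 0 ≤ psi lam h e := by
    intro e _ he
    induction e using Sym2.ind with
    | _ u v =>
      rw [psi_mk]
      have : h u = 0 ∨ h v = 0 := by
        by_contra hcon
        push Not at hcon
        apply he
        intro y hy
        rw [Sym2.mem_iff] at hy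
        rcases hy with rfl | rfl
        · exact lt_of_le_of_ne (hnn _) (Ne.symm hcon.1)
        · exact lt_of_le_of_ne (hnn _) (Ne.symm hcon.2)
      rcases this with h0 | h0
      · rw [h0]; nlinarith [sq_nonneg (h v)]
      · rw [h0]; nlinarith [sq_nonneg (h u)]
  have hin : ∀ e ∈ G.edgeFinset, -(2 * lam * h x ^ 2) ≤ psi lam h e := by
    intro e _
    induction e using Sym2.ind with
    | _ u v =>
      rw [psi_mk]
      have h1 : h u ^ 2 ≤ h x ^ 2 := pow_le_pow_left₀ (hnn u) (hmax u) 2
      have h2 : h v ^ 2 ≤ h x ^ 2 := pow_le_pow_left₀ (hnn v) (hmax v) 2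
      nlinarith [sq_nonneg (h u - h v)]
  rcases (hnn x).lt_or_eq with hx0 | hx0
  swap
  · -- h = 0
    apply Finset.sum_nonneg
    intro e he
    refine hout e he ?_
    intro hI
    induction e using Sym2.ind with
    | _ u v =>
      have := hI u (Sym2.mem_mk_left u v)
      have h2 := hmax u
      linarith
  obtain ⟨p0⟩ := hconn.preconnected x z
  obtain ⟨w, z', q0, hq0, hadj, hz'⟩ := exists_path h p0 hz hx0 hnn
  -- make it a path
  obtain ⟨q, hqp, hq⟩ : ∃ q : G.Walk x w, q.IsPath ∧ ∀ v ∈ q.support, 0 < h v :=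
    ⟨q0.bypass, q0.bypass_isPath, fun v hv => hq0 v (q0.support_bypass_subset hv)⟩
  set I := G.edgeFinset.filter (Inside h) with hI
  set O := G.edgeFinset.filter (fun e => ¬ Inside h e) with hO
  have hsplit : ∑ e ∈ G.edgeFinset, psi lam h e = ∑ e ∈ I, psi lam h e + ∑ e ∈ O, psi lam h e :=
    (Finset.sum_filter_add_sum_filter_not _ _ _).symm
  have hqI : q.edges.toFinset ⊆ I := by
    intro e he
    rw [List.mem_toFinset] at he
    rw [hI, Finset.mem_filter]
    refine ⟨?_, ?_⟩
    · rw [SimpleGraph.mem_edgeFinset]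
      exact q.edges_subset_edgeSet he
    · intro v hv
      induction e using Sym2.ind with
      | _ a b =>
        rw [Sym2.mem_iff] at hv
        rcases hv with rfl | rfl
        · exact hq _ (q.fst_mem_support_of_mem_edges he)
        · exact hq _ (q.snd_mem_support_of_mem_edges he)
  have hnodup : q.edges.Nodup := hqp.isTrail.edges_nodup
  have hcard : q.edges.toFinset.card = q.length := by
    rw [List.toFinset_card_of_nodup hnodup, SimpleGraph.Walk.length_edges]
  have hlen : q.length ≤ I.card := by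
    rw [← hcard]; exact Finset.card_le_card hqI
  have hsumq : ∑ e ∈ q.edges.toFinset, psi lam h e = (q.edges.map (psi lam h)).sum :=
    List.sum_toFinset _ hnodup
  have hIsum : (q.edges.map (psi lam h)).sum - 2 * lam * h x ^ 2 * ((I.card : ℝ) - q.length)
      ≤ ∑ e ∈ I, psi lam h e := by
    rw [← Finset.sum_sdiff hqI, hsumq]
    have h1 : ∑ e ∈ I \ q.edges.toFinset, (-(2 * lam * h x ^ 2)) ≤
        ∑ e ∈ I \ q.edges.toFinset, psi lam h e := by
      apply Finset.sum_le_sum
      intro e he
      apply hin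
      rw [Finset.mem_sdiff, hI, Finset.mem_filter] at he
      exact he.1.1
    rw [Finset.sum_const, Finset.card_sdiff_of_subset hqI, hcard, nsmul_eq_mul,
      Nat.cast_sub hlen] at h1
    nlinarith
  have hOsum : psi lam h s(w, z') ≤ ∑ e ∈ O, psi lam h e := by
    apply Finset.single_le_sum (f := fun e => psi lam h e)
    · intro e he
      rw [hO, Finset.mem_filter] at he
      exact hout e he.1 he.2
    · rw [hO, Finset.mem_filter]
      refine ⟨by rw [SimpleGraph.mem_edgeFinset]; exact hadj, ?_⟩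
      intro hcon
      have := hcon z' (Sym2.mem_mk_right w z')
      rw [hz'] at this
      exact lt_irrefl _ this
  have hw := walk_bound hN h (q.concat hadj) hz' (by
    rw [SimpleGraph.Walk.length_concat]; omega) (by
    rw [SimpleGraph.Walk.length_concat]; omega)
  rw [SimpleGraph.Walk.edges_concat, List.concat_eq_append, List.map_append, List.sum_append,
    List.map_singleton, List.sum_singleton, SimpleGraph.Walk.length_concat, ← hlam] at hw
  obtain ⟨d, hd⟩ : ∃ d, q.length + 1 + d = N := ⟨N - (q.length + 1), by omega⟩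
  have hk := kap_lower hN d (q.length + 1) (by omega) hd
  rw [← hlam] at hk
  have hdr : ((I.card : ℝ) - q.length) ≤ d := by
    have : I.card ≤ q.length + d := by omega
    have : (I.card : ℝ) ≤ q.length + d := by exact_mod_cast this
    linarith
  have hx2 : 0 ≤ h x ^ 2 := sq_nonneg _
  rw [hsplit]
  have h5 : lam * (1 + 2 * d) * h x ^ 2 ≤ kap (Real.pi / (2 * N)) (q.length + 1) * h x ^ 2 :=
    mul_le_mul_of_nonneg_right hk hx2
  have h6 : 2 * lam * h x ^ 2 * ((I.card : ℝ) - q.length) ≤ 2 * lam * h x ^ 2 * d :=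
    mul_le_mul_of_nonneg_left hdr (by positivity)
  nlinarith

end graph

end Pool.Agent.N463.RT
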