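import Mathlib
import Pool.Agent.N463.RT

set_option autoImplicit false

open Finset

namespace Pool.Agent.N463.RT

variable {V : Type} [Fintype V] [DecidableEq V] (G : SimpleGraph V) [DecidableRel G.Adj]

lemma sum_adj_eq (F : V → V → ℝ) (hF : ∀ u v, F u v = F v u) :
    ∑ u, ∑ v, (if G.Adj u v then F u v else 0) =
      2 * ∑ e ∈ G.edgeFinset, Sym2.lift ⟨F, hF⟩ e := by
  have h1 : ∑ u, ∑ v, (if G.Adj u v then F u v else 0) = ∑ d : G.Dart, F d.fst d.snd := by
    rw [← Finset.sum_product', ← Finset.sum_filter]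
    symm
    refine Finset.sum_bij' (fun d _ ↦ (d.fst, d.snd)) (fun xy h ↦ ⟨xy, (mem_filter.1 h).2⟩)
      ?_ ?_ ?_ ?_ ?_ <;> simp
  rw [h1]
  rw [← Finset.sum_fiberwise_of_maps_to (s := (univ : Finset G.Dart)) (t := G.edgeFinset)
    (g := SimpleGraph.Dart.edge) (fun d _ => by
      rw [SimpleGraph.mem_edgeFinset]; apply SimpleGraph.Dart.edge_mem)]
  rw [Finset.mul_sum]
  apply Finset.sum_congr rfl
  intro e he
  have hc : ∀ d ∈ (univ : Finset G.Dart).filter (fun d => d.edge = e),
      F d.fst d.snd = Sym2.lift ⟨F, hF⟩ e := by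
    intro d hd
    rw [mem_filter] at hd
    rw [← hd.2]
    rfl
  rw [Finset.sum_congr rfl hc, Finset.sum_const, G.dart_edge_fiber_card e (by
    rwa [← SimpleGraph.mem_edgeFinset])]
  simp

lemma sum_degree_eq (k : V → ℝ) :
    ∑ v, (G.degree v : ℝ) * k v =
      ∑ e ∈ G.edgeFinset, Sym2.lift ⟨fun u v => k u + k v, fun _ _ => add_comm _ _⟩ e := by
  have h1 : ∀ v, (G.degree v : ℝ) * k v = ∑ u, (if G.Adj v u then k v else 0) := by
    intro v
    rw [← Finset.sum_filter, Finset.sum_const, nsmul_eq_mul]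
    congr 2
    rw [← SimpleGraph.card_neighborFinset_eq_degree]
    congr 1
    ext u
    simp
  have h2 : ∑ v, (G.degree v : ℝ) * k v = ∑ v, ∑ u, (if G.Adj v u then k v else 0) :=
    Finset.sum_congr rfl (fun v _ => h1 v)
  have h3 : ∑ v, (G.degree v : ℝ) * k v = ∑ v, ∑ u, (if G.Adj v u then k u else 0) := by
    rw [h2, Finset.sum_comm]
    apply Finset.sum_congr rfl
    intro u _
    apply Finset.sum_congr rfl
    intro v _
    by_cases h : G.Adj u v
    · rw [if_pos h, if_pos h.symm]
    · rw [if_neg h, if_neg (fun h' => h h'.symm)]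
  have h4 := sum_adj_eq G (fun u v => k u + k v) (fun u v => add_comm _ _)
  have h5 : ∑ u, ∑ v, (if G.Adj u v then (k u + k v) else 0) =
      ∑ v, ∑ u, (if G.Adj v u then k v else 0) + ∑ v, ∑ u, (if G.Adj v u then k u else 0) := by
    rw [← Finset.sum_add_distrib]
    apply Finset.sum_congr rfl
    intro u _
    rw [← Finset.sum_add_distrib]
    apply Finset.sum_congr rfl
    intro v _
    by_cases h : G.Adj u v
    · simp [h]
    · simp [h]
  rw [h5, ← h2, ← h3] at h4
  linarith

open Classical in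
/-- a median level -/
lemma exists_median (f : V → ℝ) [Nonempty V] :
    ∃ w : V, 2 * (G.edgeFinset.filter (fun e => ∀ v ∈ e, f w < f v)).card ≤ G.edgeFinset.card ∧
      2 * (G.edgeFinset.filter (fun e => ∀ v ∈ e, f v < f w)).card ≤ G.edgeFinset.card := by
  obtain ⟨x, -, hx⟩ := Finset.exists_max_image (univ : Finset V) f univ_nonempty
  have hxm : ∀ v, f v ≤ f x := fun v => hx v (mem_univ _)
  set A := (univ : Finset V).filter (fun w =>
    2 * (G.edgeFinset.filter (fun e => ∀ v ∈ e, f w < f v)).card ≤ G.edgeFinset.card) with hA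
  have hxA : x ∈ A := by
    rw [hA, mem_filter]
    refine ⟨mem_univ _, ?_⟩
    have : G.edgeFinset.filter (fun e => ∀ v ∈ e, f x < f v) = ∅ := by
      rw [Finset.filter_eq_empty_iff]
      intro e he hcon
      induction e using Sym2.ind with
      | _ a b =>
        have := hcon a (Sym2.mem_mk_left a b)
        exact absurd this (not_lt.2 (hxm a))
    rw [this]
    simp
  obtain ⟨w, hwA, hw⟩ := Finset.exists_min_image A f ⟨x, hxA⟩
  refine ⟨w, (mem_filter.1 hwA).2, ?_⟩
  by_contra hcon
  push Not at hcon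
  -- a vertex below
  set L := (univ : Finset V).filter (fun v => f v < f w) with hL
  have hLne : L.Nonempty := by
    by_contra hemp
    rw [Finset.not_nonempty_iff_eq_empty] at hemp
    have : G.edgeFinset.filter (fun e => ∀ v ∈ e, f v < f w) = ∅ := by
      rw [Finset.filter_eq_empty_iff]
      intro e he hcon'
      induction e using Sym2.ind with
      | _ a b =>
        have h1 := hcon' a (Sym2.mem_mk_left a b)
        have : a ∈ L := by rw [hL, mem_filter]; exact ⟨mem_univ _, h1⟩
        rw [hemp] at this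
        simp at this
    rw [this] at hcon
    simp at hcon
  obtain ⟨y, hyL, hy⟩ := Finset.exists_max_image L f hLne
  have hyw : f y < f w := (mem_filter.1 hyL).2
  have hynA : y ∉ A := fun h => absurd (hw y h) (not_le.2 hyw)
  have hyc : G.edgeFinset.card < 2 * (G.edgeFinset.filter (fun e => ∀ v ∈ e, f y < f v)).card := by
    by_contra hc
    push Not at hc
    exact hynA (mem_filter.2 ⟨mem_univ _, hc⟩)
  have hdisj : Disjoint (G.edgeFinset.filter (fun e => ∀ v ∈ e, f y < f v))
      (G.edgeFinset.filter (fun e => ∀ v ∈ e, f v < f w)) := by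
    rw [Finset.disjoint_left]
    intro e he he'
    rw [mem_filter] at he he'
    induction e using Sym2.ind with
    | _ a b =>
      have h1 := he.2 a (Sym2.mem_mk_left a b)
      have h2 := he'.2 a (Sym2.mem_mk_left a b)
      have h3 := hy a (mem_filter.2 ⟨mem_univ _, h2⟩)
      linarith
  have hle := Finset.card_le_card (Finset.union_subset
    (Finset.filter_subset (fun e => ∀ v ∈ e, f y < f v) G.edgeFinset)
    (Finset.filter_subset (fun e => ∀ v ∈ e, f v < f w) G.edgeFinset))
  rw [Finset.card_union_of_disjoint hdisj] at hle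
  omega

/-- the two-sided inequality -/
lemma two_sided (f : V → ℝ) (hconn : G.Connected) :
    ∃ c : ℝ, (1 - Real.cos (Real.pi / (2 * ((G.edgeFinset.card / 2 + 1 : ℕ) : ℝ)))) *
        ∑ v, (G.degree v : ℝ) * (f v - c) ^ 2 ≤
      (1 / 2 : ℝ) * ∑ u, ∑ v, (if G.Adj u v then (f u - f v) ^ 2 else 0) := by
  classical
  have := hconn.nonempty
  obtain ⟨w, hw1, hw2⟩ := exists_median G f
  refine ⟨f w, ?_⟩
  set N := G.edgeFinset.card / 2 + 1 with hN
  have hN1 : 1 ≤ N := by omega
  set lam := 1 - Real.cos (Real.pi / (2 * (N : ℝ))) with hlam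
  have hp := one_sided G hN1 (fun v => max (f v - f w) 0) (fun v => le_max_right _ _) hconn w
    (by simp) (by
      have : (G.edgeFinset.filter (Inside (fun v => max (f v - f w) 0))) =
          (G.edgeFinset.filter (fun e => ∀ v ∈ e, f w < f v)) := by
        apply Finset.filter_congr
        intro e _
        unfold Inside
        apply forall_congr'
        intro v
        apply forall_congr'
        intro _
        constructor
        · intro h
          by_contra hcon
          push Not at hcon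
          have h' : 0 < max (f v - f w) 0 := h
          rw [max_eq_right (by linarith)] at h'
          exact lt_irrefl _ h'
        · intro h
          exact lt_of_lt_of_le (by linarith) (le_max_left _ _)
      rw [this]
      omega)
  have hm := one_sided G hN1 (fun v => max (f w - f v) 0) (fun v => le_max_right _ _) hconn w
    (by simp) (by
      have : (G.edgeFinset.filter (Inside (fun v => max (f w - f v) 0))) =
          (G.edgeFinset.filter (fun e => ∀ v ∈ e, f v < f w)) := by
        apply Finset.filter_congr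
        intro e _
        unfold Inside
        apply forall_congr'
        intro v
        apply forall_congr'
        intro _
        constructor
        · intro h
          by_contra hcon
          push Not at hcon
          have h' : 0 < max (f w - f v) 0 := h
          rw [max_eq_right (by linarith)] at h'
          exact lt_irrefl _ h'
        · intro h
          exact lt_of_lt_of_le (by linarith) (le_max_left _ _)
      rw [this]
      omega)
  rw [← hlam] at hp hm
  rw [sum_adj_eq G (fun u v => (f u - f v) ^ 2) (fun u v => by ring),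
    sum_degree_eq G (fun v => (f v - f w) ^ 2)]
  rw [← mul_assoc]
  norm_num
  rw [Finset.mul_sum]
  rw [← sub_nonneg, ← Finset.sum_sub_distrib]
  refine le_trans (add_nonneg hp hm) ?_
  rw [← Finset.sum_add_distrib]
  apply Finset.sum_le_sum
  intro e _
  induction e using Sym2.ind with
  | _ a b =>
    simp only [psi_mk, Sym2.lift_mk]
    rcases le_total (f a) (f w) with ha | ha <;> rcases le_total (f b) (f w) with hb | hb
    · rw [max_eq_right (by linarith), max_eq_right (by linarith), max_eq_left (by linarith),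
        max_eq_left (by linarith)]
      nlinarith
    · rw [max_eq_right (by linarith : f a - f w ≤ 0), max_eq_left (by linarith : 0 ≤ f b - f w),
        max_eq_left (by linarith : 0 ≤ f w - f a),
        max_eq_right (by linarith : f w - f b ≤ 0)]
      nlinarith [mul_nonneg (sub_nonneg.2 ha) (sub_nonneg.2 hb)]
    · rw [max_eq_left (by linarith : 0 ≤ f a - f w), max_eq_right (by linarith : f b - f w ≤ 0),
        max_eq_right (by linarith : f w - f a ≤ 0),
        max_eq_left (by linarith : 0 ≤ f w - f b)]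
      nlinarith [mul_nonneg (sub_nonneg.2 ha) (sub_nonneg.2 hb)]
    · rw [max_eq_left (by linarith), max_eq_left (by linarith), max_eq_right (by linarith),
        max_eq_right (by linarith)]
      nlinarith

/-- asymptotics of the constant -/
lemma constant (ε : ℝ) (hε : 0 < ε) : ∃ M : ℕ, ∀ m : ℕ, M ≤ m →
    1 ≤ (1 + ε) * (2 * (m : ℝ) ^ 2 / Real.pi ^ 2) *
      (1 - Real.cos (Real.pi / (2 * ((m / 2 + 1 : ℕ) : ℝ)))) := by
  obtain ⟨M0, hM0⟩ := exists_nat_gt (6 * (1 + ε) / ε)
  refine ⟨max M0 10, ?_⟩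
  intro m hm
  have hm1 : M0 ≤ m := le_trans (le_max_left _ _) hm
  have hm2 : 10 ≤ m := le_trans (le_max_right _ _) hm
  have hmR : (10 : ℝ) ≤ m := by exact_mod_cast hm2
  have hmε : 6 * (1 + ε) / ε < m := lt_of_lt_of_le hM0 (by exact_mod_cast hm1)
  have hmε' : 6 * (1 + ε) < m * ε := by rwa [div_lt_iff₀ hε] at hmε
  set N := m / 2 + 1 with hN
  have hNu : (N : ℝ) ≤ ((m : ℝ) + 2) / 2 := by
    have : 2 * N ≤ m + 2 := by omega
    have : (2 : ℝ) * N ≤ m + 2 := by exact_mod_cast this
    linarith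
  have hNl : (m : ℝ) / 2 ≤ N := by
    have : m ≤ 2 * N := by omega
    have : (m : ℝ) ≤ 2 * N := by exact_mod_cast this
    linarith
  have hNpos : (0 : ℝ) < N := by linarith
  have hpi := Real.pi_pos
  have hpi4 := Real.pi_lt_four
  set θ := Real.pi / (2 * (N : ℝ)) with hθ
  have hθpos : 0 < θ := by positivity
  have hθm : θ * m ≤ 4 := by
    rw [hθ, div_mul_eq_mul_div, div_le_iff₀ (by positivity)]
    nlinarith
  have hθ1 : θ ≤ 1 := by nlinarith
  have hcos := Real.cos_bound (x := θ) (by rw [abs_of_pos hθpos]; exact hθ1)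
  rw [abs_of_pos hθpos] at hcos
  have hcos2 := (abs_le.1 hcos).2
  -- 1 - cos θ ≥ θ²/2 - 5 θ⁴/96
  have h1 : θ ^ 2 / 2 * (1 - θ ^ 2 / 8) ≤ 1 - Real.cos θ := by nlinarith [pow_pos hθpos 4]
  have h2 : θ ^ 2 / 8 ≤ 2 / m ^ 2 := by
    rw [div_le_div_iff₀ (by norm_num) (by positivity)]
    have : (θ * m) ^ 2 ≤ 4 ^ 2 := pow_le_pow_left₀ (by positivity) hθm 2
    nlinarith
  have h3 : Real.pi ≤ θ * (m + 2) := by
    rw [hθ, div_mul_eq_mul_div, le_div_iff₀ (by positivity)]
    nlinarith
  have hmpos : (0 : ℝ) < m := by linarith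
  -- t = θ m / π
  have h4 : (m : ℝ) / (m + 2) ≤ θ * m / Real.pi := by
    rw [div_le_div_iff₀ (by positivity) hpi]
    nlinarith
  have h5 : 1 - 4 / (m : ℝ) ≤ ((m : ℝ) / (m + 2)) ^ 2 := by
    rw [div_pow, le_div_iff₀ (by positivity)]
    have : (1 - 4 / (m : ℝ)) * ((m : ℝ) + 2) ^ 2 = (m : ℝ) ^ 2 - 12 - 16 / m := by
      field_simp
      ring
    rw [this]
    have : 0 ≤ 16 / (m : ℝ) := by positivity
    linarith
  have h6 : ((m : ℝ) / (m + 2)) ^ 2 ≤ (θ * m / Real.pi) ^ 2 :=
    pow_le_pow_left₀ (by positivity) h4 2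
  have h7 : (θ * m / Real.pi) ^ 2 * (1 - 2 / (m : ℝ) ^ 2) ≤
      2 * (m : ℝ) ^ 2 / Real.pi ^ 2 * (1 - Real.cos θ) := by
    calc (θ * m / Real.pi) ^ 2 * (1 - 2 / (m : ℝ) ^ 2)
        ≤ (θ * m / Real.pi) ^ 2 * (1 - θ ^ 2 / 8) :=
          mul_le_mul_of_nonneg_left (by linarith) (sq_nonneg _)
      _ = 2 * (m : ℝ) ^ 2 / Real.pi ^ 2 * (θ ^ 2 / 2 * (1 - θ ^ 2 / 8)) := by
          field_simp
      _ ≤ _ := mul_le_mul_of_nonneg_left h1 (by positivity)
  set y := 1 / (m : ℝ) with hy
  have hy0 : 0 < y := by positivity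
  have hy1 : y ≤ 1 / 10 := by
    rw [hy]
    exact one_div_le_one_div_of_le (by norm_num) hmR
  have e4 : 4 / (m : ℝ) = 4 * y := by rw [hy]; ring
  have e2 : 2 / (m : ℝ) ^ 2 = 2 * y ^ 2 := by rw [hy]; field_simp
  rw [e4] at h5
  rw [e2] at h7
  have h8 : 1 - 6 * y ≤ 2 * (m : ℝ) ^ 2 / Real.pi ^ 2 * (1 - Real.cos θ) := by
    have h9 : 1 - 4 * y ≤ (θ * m / Real.pi) ^ 2 := le_trans h5 h6
    have h10 : 0 ≤ 1 - 2 * y ^ 2 := by nlinarith
    have h11 := mul_le_mul_of_nonneg_right h9 h10
    have h14 : (1 - 4 * y) * (1 - 2 * y ^ 2) - (1 - 6 * y) = 2 * y * (1 - y) + 8 * y ^ 3 := by ring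
    have h15 : 0 ≤ 2 * y * (1 - y) := mul_nonneg (by linarith) (by linarith)
    have h16 : 0 ≤ 8 * y ^ 3 := by positivity
    linarith
  have h12 : 1 ≤ (1 + ε) * (1 - 6 * y) := by
    have h13 : 6 * (1 + ε) * y < ε := by
      rw [hy, mul_one_div, div_lt_iff₀ hmpos]
      linarith
    have h17 : (1 + ε) * (1 - 6 * y) = 1 + ε - 6 * (1 + ε) * y := by ring
    rw [h17]
    linarith
  calc (1 : ℝ) ≤ (1 + ε) * (1 - 6 * y) := h12
    _ ≤ (1 + ε) * (2 * (m : ℝ) ^ 2 / Real.pi ^ 2 * (1 - Real.cos θ)) :=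
        mul_le_mul_of_nonneg_left h8 (by linarith)
    _ = _ := by ring

end Pool.Agent.N463.RT
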