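import Mathlib

set_option autoImplicit false

namespace Pool.Agent.N463.UF

/-- a class of finite graphs, given on the vertex sets `Fin n` -/
abbrev Cls := (n : ℕ) → SimpleGraph (Fin n) → Prop

def Her (P : Cls) : Prop :=
  ∀ (a b : ℕ) (G : SimpleGraph (Fin a)) (H : SimpleGraph (Fin b)) (f : H →g G),
    Function.Injective f → P a G → P b H

def Mem (P : Cls) {V : Type} (G : SimpleGraph V) : Prop :=
  ∃ (r : ℕ) (K : SimpleGraph (Fin r)), P r K ∧ Nonempty (G ≃g K)

lemma mem_of_inj {P : Cls} (hP : Her P) {a : ℕ} {G₀ : SimpleGraph (Fin a)} (h : P a G₀)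
    {V : Type} [Finite V] (G : SimpleGraph V) (f : V → Fin a) (hf : Function.Injective f)
    (hadj : ∀ u v, G.Adj u v → G₀.Adj (f u) (f v)) : Mem P G := by
  classical
  have := Fintype.ofFinite V
  refine ⟨Fintype.card V, G.overFin rfl, ?_, ⟨G.overFinIso rfl⟩⟩
  let e := G.overFinIso (rfl : Fintype.card V = Fintype.card V)
  refine hP a _ G₀ _ ⟨fun x => f (e.symm x), ?_⟩ ?_ h
  · intro u v huv
    exact hadj _ _ ((e.symm.map_adj_iff).2 huv)
  · intro u v huv
    exact e.symm.injective (hf huv)

lemma of_mem {P : Cls} (hP : Her P) {V : Type} {G : SimpleGraph V} (h : Mem P G)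
    {b : ℕ} (H : SimpleGraph (Fin b)) (f : Fin b → V) (hf : Function.Injective f)
    (hadj : ∀ u v, H.Adj u v → G.Adj (f u) (f v)) : P b H := by
  obtain ⟨r, K, hK, ⟨e⟩⟩ := h
  refine hP r b K H ⟨fun x => e (f x), ?_⟩ ?_ hK
  · intro u v huv
    exact (e.map_adj_iff).2 (hadj _ _ huv)
  · intro u v huv
    exact hf (e.injective huv)

/-- `P = A · B` -/
def IsProd (P A B : Cls) : Prop :=
  ∀ (n : ℕ) (G : SimpleGraph (Fin n)),
    (P n G ↔ ∃ S : Set (Fin n), Mem A (G.induce S) ∧ Mem B (G.induce Sᶜ))

lemma IsProd.symm {P A B : Cls} (h : IsProd P A B) : IsProd P B A := by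
  intro n G
  rw [h n G]
  constructor
  · rintro ⟨S, h1, h2⟩
    exact ⟨Sᶜ, h2, by rw [compl_compl]; exact h1⟩
  · rintro ⟨S, h1, h2⟩
    exact ⟨Sᶜ, h2, by rw [compl_compl]; exact h1⟩

/-- first class: edgeless graphs and graphs with at most two vertices -/
def Q : Cls := fun n G => G = ⊥ ∨ n ≤ 2

/-- second class: bipartite graphs and graphs with at most four vertices -/
def R : Cls := fun n G => (∃ T : Set (Fin n), ∀ u v, G.Adj u v → (u ∈ T ↔ v ∉ T)) ∨ n ≤ 4

lemma Q_her : Her Q := by
  intro a b G H f hf h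
  rcases h with h | h
  · left
    subst h
    ext u v
    constructor
    · intro huv
      exact (f.map_adj huv).elim
    · intro h; exact h.elim
  · right
    have := Fintype.card_le_of_injective f hf
    simp at this
    omega

lemma R_her : Her R := by
  intro a b G H f hf h
  rcases h with ⟨T, h⟩ | h
  · left
    exact ⟨f ⁻¹' T, fun u v huv => h _ _ (f.map_adj huv)⟩
  · right
    have := Fintype.card_le_of_injective f hf
    simp at this
    omega

lemma mem_Q_iff {V : Type} [Finite V] (G : SimpleGraph V) :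
    Mem Q G ↔ (∀ u v, ¬ G.Adj u v) ∨ Nat.card V ≤ 2 := by
  constructor
  · rintro ⟨r, K, hK, ⟨e⟩⟩
    rcases hK with hK | hK
    · left
      subst hK
      intro u v huv
      exact (e.map_adj_iff).2 huv
    · right
      have := Nat.card_congr e.toEquiv
      simp at this
      omega
  · intro h
    classical
    have := Fintype.ofFinite V
    refine ⟨Fintype.card V, G.overFin rfl, ?_, ⟨G.overFinIso rfl⟩⟩
    rcases h with h | h
    · left
      ext u v
      constructor
      · intro huv
        exact (h _ _ (((G.overFinIso rfl).symm.map_adj_iff).2 huv)).elim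
      · intro h; exact h.elim
    · right
      rw [Nat.card_eq_fintype_card] at h
      exact h

lemma mem_R_iff {V : Type} [Finite V] (G : SimpleGraph V) :
    Mem R G ↔ (∃ T : Set V, ∀ u v, G.Adj u v → (u ∈ T ↔ v ∉ T)) ∨ Nat.card V ≤ 4 := by
  constructor
  · rintro ⟨r, K, hK, ⟨e⟩⟩
    rcases hK with ⟨T, hK⟩ | hK
    · left
      exact ⟨e ⁻¹' T, fun u v huv => hK _ _ ((e.map_adj_iff).2 huv)⟩
    · right
      have := Nat.card_congr e.toEquiv
      simp at this
      omega
  · intro h
    classical
    have := Fintype.ofFinite V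
    refine ⟨Fintype.card V, G.overFin rfl, ?_, ⟨G.overFinIso rfl⟩⟩
    rcases h with ⟨T, h⟩ | h
    · left
      exact ⟨(G.overFinIso rfl).symm ⁻¹' T, fun u v huv =>
        h _ _ (((G.overFinIso rfl).symm.map_adj_iff).2 huv)⟩
    · right
      rw [Nat.card_eq_fintype_card] at h
      exact h

/-- graph on `Fin 3` : the path with centre `2` -/
def P3 : SimpleGraph (Fin 3) where
  Adj i j := i ≠ j ∧ (i = 2 ∨ j = 2)
  symm := ⟨by intro i j h; exact ⟨h.1.symm, h.2.symm⟩⟩
  loopless := ⟨by intro i h; exact h.1 rfl⟩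

/-- graph on `Fin 5` : `K_2` joined to three isolated vertices -/
def B5 : SimpleGraph (Fin 5) where
  Adj i j := i ≠ j ∧ (i.val < 2 ∨ j.val < 2)
  symm := ⟨by intro i j h; exact ⟨h.1.symm, h.2.symm⟩⟩
  loopless := ⟨by intro i h; exact h.1 rfl⟩

/-- graph on `Fin 5` : cone over `K_2` plus two isolated vertices -/
def C5 : SimpleGraph (Fin 5) where
  Adj i j := i ≠ j ∧ (i = 4 ∨ j = 4 ∨ (i.val < 2 ∧ j.val < 2))
  symm := ⟨by
    intro i j h
    refine ⟨h.1.symm, ?_⟩
    rcases h.2 with h | h | h
    · exact Or.inr (Or.inl h)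
    · exact Or.inl h
    · exact Or.inr (Or.inr ⟨h.2, h.1⟩)⟩
  loopless := ⟨by intro i h; exact h.1 rfl⟩

/-- graph on `Fin 4` : `K_2` plus two isolated vertices -/
def E4 : SimpleGraph (Fin 4) where
  Adj i j := i ≠ j ∧ i.val < 2 ∧ j.val < 2
  symm := ⟨by intro i j h; exact ⟨h.1.symm, h.2.2, h.2.1⟩⟩
  loopless := ⟨by intro i h; exact h.1 rfl⟩

/-- `K_{3,3}` -/
def K33 : SimpleGraph (Fin 6) where
  Adj i j := i.val % 2 ≠ j.val % 2
  symm := ⟨by intro i j h; exact h.symm⟩
  loopless := ⟨by intro i h; exact h rfl⟩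

lemma not_Q_P3 : ¬ Q 3 P3 := by
  rintro (h | h)
  · have : P3.Adj 0 2 := ⟨by decide, Or.inr rfl⟩
    rw [h] at this
    exact this
  · omega

lemma not_R_of_triangle {n : ℕ} (G : SimpleGraph (Fin n)) (hn : 5 ≤ n) (a b c : Fin n)
    (hab : G.Adj a b) (hbc : G.Adj b c) (hac : G.Adj a c) : ¬ R n G := by
  rintro (⟨T, h⟩ | h)
  · have h1 := h _ _ hab
    have h2 := h _ _ hbc
    have h3 := h _ _ hac
    tauto
  · omega

lemma not_R_B5 : ¬ R 5 B5 :=
  not_R_of_triangle _ le_rfl 0 1 2 ⟨by decide, by decide⟩ ⟨by decide, by decide⟩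
    ⟨by decide, by decide⟩

lemma not_R_C5 : ¬ R 5 C5 :=
  not_R_of_triangle _ le_rfl 0 1 4 ⟨by decide, by decide⟩ ⟨by decide, by decide⟩
    ⟨by decide, by decide⟩

lemma R_K33 : R 6 K33 := by
  left
  refine ⟨{i | i.val % 2 = 0}, ?_⟩
  intro u v h
  have h' : u.val % 2 ≠ v.val % 2 := h
  simp only [Set.mem_ofPred_eq]
  omega

/-- the set of the first `k` elements of `Fin n` -/
def lo (n k : ℕ) : Set (Fin n) := {i | i.val < k}

lemma Q_irr (A B : Cls) (hA : Her A) (hB : Her B) (hA1 : A 1 ⊥) (hB1 : B 1 ⊥) :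
    ¬ IsProd Q A B := by
  -- symmetric core
  have core : ∀ A B : Cls, Her A → Her B → A 1 ⊥ → B 1 ⊥ → IsProd Q A B → ¬ A 2 ⊥ := by
    intro A B hA hB _ hB1 h hA2
    apply not_Q_P3
    rw [h 3 P3]
    refine ⟨lo 3 2, ?_, ?_⟩
    · refine mem_of_inj hA hA2 _ (fun x => ⟨x.1.val, x.2⟩) ?_ ?_
      · intro x y hxy
        apply Subtype.ext
        apply Fin.ext
        have h8 := congrArg Fin.val hxy; exact h8
      · intro u v huv
        have h1 : P3.Adj u.1 v.1 := huv
        have hu : u.1.val < 2 := u.2
        have hv : v.1.val < 2 := v.2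
        rcases h1.2 with h2 | h2
        · rw [h2] at hu; exact absurd hu (by decide)
        · rw [h2] at hv; exact absurd hv (by decide)
    · refine mem_of_inj hB hB1 _ (fun _ => 0) ?_ ?_
      · intro x y _
        have hx : ¬ x.1.val < 2 := x.2
        have hy : ¬ y.1.val < 2 := y.2
        apply Subtype.ext
        apply Fin.ext
        omega
      · intro u v huv
        have hx : ¬ u.1.val < 2 := u.2
        have hy : ¬ v.1.val < 2 := v.2
        have h1 : P3.Adj u.1 v.1 := huv
        exact absurd (Fin.ext (by omega)) h1.1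
  intro h
  have hQ : Q 3 (⊥ : SimpleGraph (Fin 3)) := Or.inl rfl
  rw [h 3 ⊥] at hQ
  obtain ⟨S, ⟨r, K, hK, ⟨e⟩⟩, ⟨s, L, hL, ⟨e'⟩⟩⟩ := hQ
  have hr : Nat.card S = r := by
    have := Nat.card_congr e.toEquiv
    simpa using this
  have hs : Nat.card (Sᶜ : Set (Fin 3)) = s := by
    have := Nat.card_congr e'.toEquiv
    simpa using this
  have hrs : r + s = 3 := by
    have := Set.ncard_add_ncard_compl S
    rw [Nat.card_coe_set_eq] at hr hs
    rw [hr, hs] at this
    simpa using this
  have hK2 : 2 ≤ r ∨ 2 ≤ s := by omega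
  rcases hK2 with h2 | h2
  · refine core A B hA hB hA1 hB1 h (hA r 2 K ⊥ ⟨Fin.castLE h2, ?_⟩ ?_ hK)
    · intro u v huv; exact huv.elim
    · exact Fin.castLE_injective h2
  · refine core B A hB hA hB1 hA1 h.symm (hB s 2 L ⊥ ⟨Fin.castLE h2, ?_⟩ ?_ hL)
    · intro u v huv; exact huv.elim
    · exact Fin.castLE_injective h2

lemma four_in_K33 : ∀ S : Finset (Fin 6), 4 ≤ S.card →
    ∃ f : Fin 4 → Fin 6, (∀ i, f i ∈ S) ∧ Function.Injective f ∧
      (f 0).val % 2 ≠ (f 1).val % 2 := by
  intro S hS
  -- some even and some odd element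
  have h1 : ∃ a ∈ S, a.val % 2 = 0 := by
    by_contra hcon
    push Not at hcon
    have : S ⊆ Finset.univ.filter (fun i : Fin 6 => i.val % 2 ≠ 0) := by
      intro x hx
      simp only [Finset.mem_filter, Finset.mem_univ, true_and]
      exact hcon x hx
    have h2 := Finset.card_le_card this
    have h3 : (Finset.univ.filter (fun i : Fin 6 => i.val % 2 ≠ 0)).card = 3 := by decide
    omega
  have h2 : ∃ a ∈ S, a.val % 2 ≠ 0 := by
    by_contra hcon
    push Not at hcon
    have : S ⊆ Finset.univ.filter (fun i : Fin 6 => i.val % 2 = 0) := by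
      intro x hx
      simp only [Finset.mem_filter, Finset.mem_univ, true_and]
      exact hcon x hx
    have h2 := Finset.card_le_card this
    have h3 : (Finset.univ.filter (fun i : Fin 6 => i.val % 2 = 0)).card = 3 := by decide
    omega
  obtain ⟨a, ha, ha0⟩ := h1
  obtain ⟨b, hb, hb0⟩ := h2
  have hab : a ≠ b := by rintro rfl; exact hb0 ha0
  have h3 : 2 ≤ ((S.erase a).erase b).card := by
    rw [Finset.card_erase_of_mem (Finset.mem_erase.2 ⟨hab.symm, hb⟩),
      Finset.card_erase_of_mem ha]
    omega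
  obtain ⟨c, hc, d, hd, hcd⟩ := Finset.one_lt_card.1 h3
  simp only [Finset.mem_erase, ne_eq] at hc hd
  refine ⟨![a, b, c, d], ?_, ?_, ?_⟩
  · intro i
    fin_cases i
    · exact ha
    · exact hb
    · exact hc.2.2
    · exact hd.2.2
  · intro i j hij
    have hc1 := hc.1
    have hc2 := hc.2.1
    have hd1 := hd.1
    have hd2 := hd.2.1
    fin_cases i <;> fin_cases j <;> simp at hij ⊢ <;> first
      | exact hab hij | exact hab hij.symm
      | exact hc1 hij | exact hc1 hij.symm
      | exact hc2 hij | exact hc2 hij.symm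
      | exact hd1 hij | exact hd1 hij.symm
      | exact hd2 hij | exact hd2 hij.symm
      | exact hcd hij | exact hcd hij.symm
  · simp only [Matrix.cons_val_zero, Matrix.cons_val_one]
    omega

lemma R_irr (A B : Cls) (hA : Her A) (hB : Her B) (hA1 : A 1 ⊥) (hB1 : B 1 ⊥) :
    ¬ IsProd R A B := by
  have core : ∀ A B : Cls, Her A → Her B → A 1 ⊥ → B 1 ⊥ → IsProd R A B → ¬ A 2 ⊤ := by
    intro A B hA hB _ hB1 h hA2
    -- B has no members with three vertices
    have hB3 : ¬ B 3 ⊥ := by
      intro hB3
      apply not_R_B5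
      rw [h 5 B5]
      refine ⟨lo 5 2, ?_, ?_⟩
      · refine mem_of_inj hA hA2 _ (fun x => ⟨x.1.val, x.2⟩) ?_ ?_
        · intro x y hxy
          apply Subtype.ext
          apply Fin.ext
          have h8 := congrArg Fin.val hxy; exact h8
        · intro u v huv
          have h1 : B5.Adj u.1 v.1 := huv
          have h2 : u.1.val ≠ v.1.val := fun h => h1.1 (Fin.ext h)
          rw [SimpleGraph.top_adj]
          intro h3
          apply h2
          have h8 := congrArg Fin.val h3; exact h8
      · refine mem_of_inj hB hB3 _ (fun x => ⟨x.1.val - 2, by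
          have := x.1.isLt
          omega⟩) ?_ ?_
        · intro x y hxy
          have hx : ¬ x.1.val < 2 := x.2
          have hy : ¬ y.1.val < 2 := y.2
          apply Subtype.ext
          apply Fin.ext
          simp only [Fin.mk.injEq] at hxy
          omega
        · intro u v huv
          have hx : ¬ u.1.val < 2 := u.2
          have hy : ¬ v.1.val < 2 := v.2
          have h1 : B5.Adj u.1 v.1 := huv
          exact absurd h1.2 (by omega)
    have hBs : ∀ (s : ℕ) (L : SimpleGraph (Fin s)), B s L → s ≤ 2 := by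
      intro s L hL
      by_contra hs
      apply hB3
      have hs3 : 3 ≤ s := by omega
      refine hB s 3 L ⊥ ⟨Fin.castLE hs3, ?_⟩ ?_ hL
      · intro u v huv; exact huv.elim
      · exact Fin.castLE_injective hs3
    -- A has no member E4
    have hA4 : ¬ A 4 E4 := by
      intro hA4
      apply not_R_C5
      rw [h 5 C5]
      refine ⟨lo 5 4, ?_, ?_⟩
      · refine mem_of_inj hA hA4 _ (fun x => ⟨x.1.val, x.2⟩) ?_ ?_
        · intro x y hxy
          apply Subtype.ext
          apply Fin.ext
          have h8 := congrArg Fin.val hxy; exact h8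
        · intro u v huv
          have h1 : C5.Adj u.1 v.1 := huv
          have hu : u.1.val < 4 := u.2
          have hv : v.1.val < 4 := v.2
          refine ⟨fun h3 => h1.1 (Fin.ext (by have h8 := congrArg Fin.val h3; exact h8)), ?_⟩
          rcases h1.2 with h2 | h2 | h2
          · rw [h2] at hu; exact absurd hu (by decide)
          · rw [h2] at hv; exact absurd hv (by decide)
          · exact h2
      · refine mem_of_inj hB hB1 _ (fun _ => 0) ?_ ?_
        · intro x y _
          have hx : ¬ x.1.val < 4 := x.2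
          have hy : ¬ y.1.val < 4 := y.2
          apply Subtype.ext
          apply Fin.ext
          omega
        · intro u v huv
          have hx : ¬ u.1.val < 4 := u.2
          have hy : ¬ v.1.val < 4 := v.2
          have h1 : C5.Adj u.1 v.1 := huv
          exact absurd (Fin.ext (by omega)) h1.1
    have hR := R_K33
    rw [h 6 K33] at hR
    obtain ⟨S, ⟨r, K, hK, ⟨e⟩⟩, ⟨s, L, hL, ⟨e'⟩⟩⟩ := hR
    have hr : Nat.card S = r := by
      have := Nat.card_congr e.toEquiv
      simpa using this
    have hs : Nat.card (Sᶜ : Set (Fin 6)) = s := by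
      have := Nat.card_congr e'.toEquiv
      simpa using this
    have hrs : r + s = 6 := by
      have := Set.ncard_add_ncard_compl S
      rw [Nat.card_coe_set_eq] at hr hs
      rw [hr, hs] at this
      simpa using this
    have hs2 := hBs s L hL
    classical
    have hS4 : 4 ≤ S.toFinset.card := by
      rw [← Set.ncard_eq_toFinset_card']
      rw [Nat.card_coe_set_eq] at hr
      omega
    obtain ⟨f, hf1, hf2, hf3⟩ := four_in_K33 S.toFinset hS4
    apply hA4
    refine of_mem hA (V := S) (G := K33.induce S) ⟨r, K, hK, ⟨e⟩⟩ E4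
      (fun i => ⟨f i, Set.mem_toFinset.1 (hf1 i)⟩) ?_ ?_
    · intro i j hij
      exact hf2 (by simpa using hij)
    · intro u v huv
      show K33.Adj (f u) (f v)
      obtain ⟨h1, h2, h3⟩ := huv
      have h4 : (u = 0 ∧ v = 1) ∨ (u = 1 ∧ v = 0) := by
        have h5 : u.val ≠ v.val := fun h => h1 (Fin.ext h)
        rcases Nat.lt_or_ge u.val 1 with h6 | h6
        · left
          constructor <;> apply Fin.ext <;> simp <;> omega
        · right
          constructor <;> apply Fin.ext <;> simp <;> omega
      rcases h4 with ⟨rfl, rfl⟩ | ⟨rfl, rfl⟩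
      · exact hf3
      · exact hf3.symm
  intro h
  have hR : R 4 (⊤ : SimpleGraph (Fin 4)) := Or.inr le_rfl
  rw [h 4 ⊤] at hR
  obtain ⟨S, ⟨r, K, hK, ⟨e⟩⟩, ⟨s, L, hL, ⟨e'⟩⟩⟩ := hR
  have hr : Nat.card S = r := by
    have := Nat.card_congr e.toEquiv
    simpa using this
  have hs : Nat.card (Sᶜ : Set (Fin 4)) = s := by
    have := Nat.card_congr e'.toEquiv
    simpa using this
  have hrs : r + s = 4 := by
    have := Set.ncard_add_ncard_compl S
    rw [Nat.card_coe_set_eq] at hr hs
    rw [hr, hs] at this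
    simpa using this
  have hKtop : ∀ u v, u ≠ v → K.Adj u v := by
    intro u v huv
    have h1 : ((⊤ : SimpleGraph (Fin 4)).induce S).Adj (e.symm u) (e.symm v) := by
      show (⊤ : SimpleGraph (Fin 4)).Adj _ _
      rw [SimpleGraph.top_adj]
      intro h3
      exact huv (e.symm.injective (Subtype.ext h3))
    exact (e.symm.map_adj_iff).1 h1
  have hLtop : ∀ u v, u ≠ v → L.Adj u v := by
    intro u v huv
    have h1 : ((⊤ : SimpleGraph (Fin 4)).induce Sᶜ).Adj (e'.symm u) (e'.symm v) := by
      show (⊤ : SimpleGraph (Fin 4)).Adj _ _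
      rw [SimpleGraph.top_adj]
      intro h3
      exact huv (e'.symm.injective (Subtype.ext h3))
    exact (e'.symm.map_adj_iff).1 h1
  have hK2 : 2 ≤ r ∨ 2 ≤ s := by omega
  rcases hK2 with h2 | h2
  · refine core A B hA hB hA1 hB1 h (hA r 2 K ⊤ ⟨Fin.castLE h2, ?_⟩ ?_ hK)
    · intro u v huv
      apply hKtop
      intro h3
      rw [SimpleGraph.top_adj] at huv
      exact huv (Fin.castLE_injective h2 h3)
    · exact Fin.castLE_injective h2
  · refine core B A hB hA hB1 hA1 h.symm (hB s 2 L ⊤ ⟨Fin.castLE h2, ?_⟩ ?_ hL)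
    · intro u v huv
      apply hLtop
      intro h3
      rw [SimpleGraph.top_adj] at huv
      exact huv (Fin.castLE_injective h2 h3)
    · exact Fin.castLE_injective h2

/-- `Q · Q · Q = Q · R` -/
lemma QQQ_eq_QR (n : ℕ) (G : SimpleGraph (Fin n)) :
    (∃ c : Fin n → Fin 3, ∀ i : Fin 3, Mem Q (G.induce {v | c v = i})) ↔
    (∃ c : Fin n → Fin 2, ∀ j : Fin 2, Mem (if j = 0 then Q else R) (G.induce {v | c v = j})) := by
  have hQ : ∀ S : Set (Fin n), Mem Q (G.induce S) ↔
      (∀ u ∈ S, ∀ v ∈ S, ¬ G.Adj u v) ∨ S.ncard ≤ 2 := by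
    intro S
    rw [mem_Q_iff, Nat.card_coe_set_eq]
    constructor
    · rintro (h | h)
      · left
        intro u hu v hv huv
        exact h ⟨u, hu⟩ ⟨v, hv⟩ huv
      · exact Or.inr h
    · rintro (h | h)
      · left
        intro u v huv
        exact h u.1 u.2 v.1 v.2 huv
      · exact Or.inr h
  have hR : ∀ S : Set (Fin n), Mem R (G.induce S) ↔
      (∃ T : Set (Fin n), ∀ u ∈ S, ∀ v ∈ S, G.Adj u v → (u ∈ T ↔ v ∉ T)) ∨ S.ncard ≤ 4 := by
    intro S
    rw [mem_R_iff, Nat.card_coe_set_eq]
    constructor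
    · rintro (⟨T, h⟩ | h)
      · left
        refine ⟨Subtype.val '' T, ?_⟩
        intro u hu v hv huv
        have h1 := h ⟨u, hu⟩ ⟨v, hv⟩ huv
        constructor
        · rintro ⟨x, hx, hxu⟩ ⟨y, hy, hyv⟩
          have hx' : x = ⟨u, hu⟩ := Subtype.ext hxu
          have hy' : y = ⟨v, hv⟩ := Subtype.ext hyv
          rw [hx'] at hx
          rw [hy'] at hy
          exact h1.1 hx hy
        · intro hv'
          refine ⟨⟨u, hu⟩, h1.2 ?_, rfl⟩
          intro hv''
          exact hv' ⟨⟨v, hv⟩, hv'', rfl⟩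
      · exact Or.inr h
    · rintro (⟨T, h⟩ | h)
      · left
        exact ⟨Subtype.val ⁻¹' T, fun u v huv => h u.1 u.2 v.1 v.2 huv⟩
      · exact Or.inr h
  constructor
  · rintro ⟨c, hc⟩
    -- choose the part that is left alone
    have key : ∃ i : Fin 3,
        ((∀ j, j ≠ i → ∀ u ∈ {v | c v = j}, ∀ v ∈ {v | c v = j}, ¬ G.Adj u v) ∨
         (∀ j, j ≠ i → Set.ncard {v | c v = j} ≤ 2)) := by
      have h0 := (hQ _).1 (hc 0)
      have h1 := (hQ _).1 (hc 1)
      have h2 := (hQ _).1 (hc 2)
      rcases h0 with h0 | h0 <;> rcases h1 with h1 | h1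
      · refine ⟨2, Or.inl ?_⟩
        intro j hj
        fin_cases j
        · exact h0
        · exact h1
        · exact absurd rfl hj
      · rcases h2 with h2 | h2
        · refine ⟨1, Or.inl ?_⟩
          intro j hj
          fin_cases j
          · exact h0
          · exact absurd rfl hj
          · exact h2
        · refine ⟨0, Or.inr ?_⟩
          intro j hj
          fin_cases j
          · exact absurd rfl hj
          · exact h1
          · exact h2
      · rcases h2 with h2 | h2
        · refine ⟨0, Or.inl ?_⟩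
          intro j hj
          fin_cases j
          · exact absurd rfl hj
          · exact h1
          · exact h2
        · refine ⟨1, Or.inr ?_⟩
          intro j hj
          fin_cases j
          · exact h0
          · exact absurd rfl hj
          · exact h2
      · refine ⟨2, Or.inr ?_⟩
        intro j hj
        fin_cases j
        · exact h0
        · exact h1
        · exact absurd rfl hj
    obtain ⟨i, hi⟩ := key
    classical
    refine ⟨fun v => if c v = i then 0 else 1, ?_⟩
    intro j
    have hj : j = 0 ∨ j = 1 := by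
      rcases j with ⟨_ | _ | j, hj⟩
      · left; rfl
      · right; rfl
      · omega
    rcases hj with rfl | rfl
    · have hset : {v | (if c v = i then (0 : Fin 2) else 1) = 0} = {v | c v = i} := by
        ext v
        simp
      rw [if_pos rfl, hset]
      exact hc i
    · have hset : {v | (if c v = i then (0 : Fin 2) else 1) = 1} = {v | c v ≠ i} := by
        ext v
        simp
      rw [if_neg (by decide), hset, hR]
      -- two remaining colours
      obtain ⟨j, k, hji, hki, hjk⟩ : ∃ j k : Fin 3, j ≠ i ∧ k ≠ i ∧ ∀ x, x ≠ i → x = j ∨ x = k := by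
        have gen : ∀ i : Fin 3, ∃ j k : Fin 3, j ≠ i ∧ k ≠ i ∧ ∀ x, x ≠ i → x = j ∨ x = k := by
          decide
        exact gen i
      rcases hi with hi | hi
      · left
        refine ⟨{v | c v = j}, ?_⟩
        intro u hu v hv huv
        have hu' : c u ≠ i := hu
        have hv' : c v ≠ i := hv
        have hne : c u ≠ c v := by
          intro he
          exact hi (c u) hu' u rfl v he.symm huv
        show c u = j ↔ ¬ c v = j
        constructor
        · intro h1 h2; exact hne (h1.trans h2.symm)
        · intro h1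
          rcases hjk _ hu' with h2 | h2
          · exact h2
          · rcases hjk _ hv' with h3 | h3
            · exact absurd h3 h1
            · exact absurd (h2.trans h3.symm) hne
      · right
        have hsub : {v | c v ≠ i} ⊆ {v | c v = j} ∪ {v | c v = k} := by
          intro v hv
          exact hjk _ hv
        have h1 := Set.ncard_le_ncard hsub (Set.toFinite _)
        have h2 := Set.ncard_union_le {v | c v = j} {v | c v = k}
        have h3 := hi j hji
        have h4 := hi k hki
        omega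
  · rintro ⟨c, hc⟩
    have hc0 := hc 0
    have hc1 := hc 1
    rw [if_pos rfl] at hc0
    rw [if_neg (by decide)] at hc1
    rw [hR] at hc1
    have hset : ∀ v, c v = 1 ↔ c v ≠ 0 := by
      intro v
      constructor
      · intro h; rw [h]; decide
      · intro h
        have := (c v).isLt
        have h' : (c v).val ≠ 0 := fun h0 => h (Fin.ext h0)
        apply Fin.ext
        show (c v).val = 1
        omega
    -- it is enough to split the second part in two
    have key : ∃ T : Set (Fin n), Mem Q (G.induce ({v | c v = 1} ∩ T)) ∧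
        Mem Q (G.induce ({v | c v = 1} \ T)) := by
      rcases hc1 with ⟨T, hT⟩ | h4
      · refine ⟨T, (hQ _).2 (Or.inl ?_), (hQ _).2 (Or.inl ?_)⟩
        · intro u hu v hv huv
          exact ((hT u hu.1 v hv.1 huv).1 hu.2) hv.2
        · intro u hu v hv huv
          exact hu.2 ((hT u hu.1 v hv.1 huv).2 hv.2)
      · classical
        obtain ⟨U, hU1, hU2⟩ : ∃ U : Set (Fin n), U ⊆ {v | c v = 1} ∧
            U.ncard = min 2 (Set.ncard {v | c v = 1}) := by
          obtain ⟨U, hU⟩ := Set.exists_subset_card_eq (s := {v | c v = 1})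
            (n := min 2 (Set.ncard {v | c v = 1})) (min_le_right _ _)
          exact ⟨U, hU.1, hU.2⟩
        refine ⟨U, (hQ _).2 (Or.inr ?_), (hQ _).2 (Or.inr ?_)⟩
        · rw [Set.inter_eq_right.2 hU1, hU2]
          exact min_le_left _ _
        · rw [Set.ncard_sdiff hU1 (Set.toFinite _), hU2]
          omega
    obtain ⟨T, hT1, hT2⟩ := key
    classical
    refine ⟨fun v => if c v = 0 then 0 else if v ∈ T then 1 else 2, ?_⟩
    intro i
    have hi : i = 0 ∨ i = 1 ∨ i = 2 := by
      revert i; decide
    rcases hi with rfl | rfl | rfl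
    · have : {v | (if c v = 0 then (0 : Fin 3) else if v ∈ T then 1 else 2) = 0} = {v | c v = 0} := by
        ext v
        by_cases h0 : c v = 0
        · simp [h0]
        · by_cases hT : v ∈ T <;> simp [h0, hT]
      rw [this]
      exact hc0
    · have : {v | (if c v = 0 then (0 : Fin 3) else if v ∈ T then 1 else 2) = 1}
          = {v | c v = 1} ∩ T := by
        ext v
        rw [Set.mem_inter_iff, Set.mem_ofPred_eq, Set.mem_ofPred_eq, hset]
        by_cases h0 : c v = 0
        · simp [h0]
        · by_cases hT : v ∈ T <;> simp [h0, hT]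
      rw [this]
      exact hT1
    · have : {v | (if c v = 0 then (0 : Fin 3) else if v ∈ T then 1 else 2) = 2}
          = {v | c v = 1} \ T := by
        ext v
        rw [Set.mem_sdiff, Set.mem_ofPred_eq, Set.mem_ofPred_eq, hset]
        by_cases h0 : c v = 0
        · simp [h0]
        · by_cases hT : v ∈ T <;> simp [h0, hT]
      rw [this]
      exact hT2

end Pool.Agent.N463.UF
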